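import Mathlib
import Pool.Agent.Helper88.PP.Goals

/-! # The second moment of a function given by labels (packet TR) -/

set_option autoImplicit false

open Finset Filter Topology

open scoped Classical ArithmeticFunction.Moebius

namespace Pool.Agent.Helper93.PP

open Pool.Agent.Helper88.PP

/-- the indicator attached to a divisor label -/
noncomputable def ind (y z d m : ℕ) : ℝ := if d = 0 then 1 else if d ∣ m ∧ Rg y z m then 1 else 0

lemma vv_eq {y z r m : ℕ} (hr : r = 0 ∨ Squarefree r) :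
    vv y z r m = ∑ d ∈ DL r, kap d * ind y z d m := by
  rcases eq_or_ne r 0 with h0 | h0
  · subst h0; simp [vv, DL, kap, ind]
  · have hsq := hr.resolve_left h0
    unfold vv DL
    rw [if_neg h0, if_neg h0]
    by_cases hR : Rg y z m
    · rw [if_pos hR]
      unfold uu
      let f : ArithmeticFunction ℝ := ⟨fun d => if d ∣ m then (d : ℝ) else 0, by simp⟩
      have hf1 : ∀ d, f d = if d ∣ m then (d : ℝ) else 0 := fun d => rfl
      have hf : f.IsMultiplicative := by
        constructor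
        · rw [hf1]; simp
        · intro a b hab
          rw [hf1, hf1, hf1]
          by_cases ha : a ∣ m
          · by_cases hb : b ∣ m
            · rw [if_pos ha, if_pos hb, if_pos (hab.mul_dvd_of_dvd_of_dvd ha hb)]
              push_cast; ring
            · rw [if_neg hb, if_neg (fun h => hb ((dvd_mul_left b a).trans h)), mul_zero]
          · rw [if_neg ha, if_neg (fun h => ha ((dvd_mul_right a b).trans h)), zero_mul]
      have h1 := ArithmeticFunction.IsMultiplicative.prodPrimeFactors_one_sub_of_squarefree f hf hsq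
      simp only [hf1] at h1
      rw [h1]
      refine Finset.sum_congr rfl fun d hd => ?_
      have hd0 : d ≠ 0 := (Nat.pos_of_mem_divisors hd).ne'
      unfold kap ind
      rw [if_neg hd0, if_neg hd0]
      by_cases hdm : d ∣ m
      · rw [if_pos hdm, if_pos ⟨hdm, hR⟩, mul_one]
      · rw [if_neg hdm, if_neg (fun h => hdm h.1), mul_zero, mul_zero]
    · rw [if_neg hR]
      symm
      refine Finset.sum_eq_zero fun d hd => ?_
      have hd0 : d ≠ 0 := (Nat.pos_of_mem_divisors hd).ne'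
      unfold ind
      rw [if_neg hd0, if_neg (fun h => hR h.2), mul_zero]

lemma LL_eq_zero {d e : ℕ} : LL d e = 0 ↔ d = 0 ∧ e = 0 := by
  unfold LL
  split_ifs with h1 h2
  · simp [h1]
  · simp [h1]
  · simp [h1, h2]

lemma ind_mul (y z d e m : ℕ) : ind y z d m * ind y z e m = ind y z (LL d e) m := by
  unfold ind LL
  by_cases hd : d = 0
  · simp [hd]
  · by_cases he : e = 0
    · simp [hd, he]
    · simp only [hd, he, if_false, Nat.lcm_ne_zero hd he]
      by_cases h1 : d ∣ m ∧ Rg y z m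
      · by_cases h2 : e ∣ m ∧ Rg y z m
        · have h3 : Nat.lcm d e ∣ m ∧ Rg y z m := ⟨Nat.lcm_dvd h1.1 h2.1, h1.2⟩
          simp only [h1, h2, h3, and_self, if_true, mul_one]
        · have h3 : ¬ (Nat.lcm d e ∣ m ∧ Rg y z m) :=
            fun h => h2 ⟨(Nat.dvd_lcm_right d e).trans h.1, h.2⟩
          simp only [h2, h3, if_false, mul_zero]
      · have h3 : ¬ (Nat.lcm d e ∣ m ∧ Rg y z m) :=
          fun h => h1 ⟨(Nat.dvd_lcm_left d e).trans h.1, h.2⟩
        simp only [h1, h3, if_false, zero_mul]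

lemma gsum {d s : ℕ} (hs : Squarefree s) :
    ∑ e ∈ s.divisors, (μ e : ℝ) * (Nat.gcd d e : ℝ) =
      if s ∣ d then (μ s : ℝ) * (Nat.totient s : ℝ) else 0 := by
  let f : ArithmeticFunction ℝ := ⟨fun e => if e = 0 then 0 else (Nat.gcd d e : ℝ), by simp⟩
  have hf1 : ∀ e, f e = if e = 0 then 0 else (Nat.gcd d e : ℝ) := fun e => rfl
  have hf : f.IsMultiplicative := by
    constructor
    · rw [hf1]; simp
    · intro a b hab
      rw [hf1, hf1, hf1]
      by_cases ha : a = 0
      · simp [ha]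
      · by_cases hb : b = 0
        · simp [hb]
        · rw [if_neg ha, if_neg hb, if_neg (mul_ne_zero ha hb), Nat.Coprime.gcd_mul d hab]
          push_cast; ring
  have h1 := ArithmeticFunction.IsMultiplicative.prodPrimeFactors_one_sub_of_squarefree f hf hs
  have h2 : ∑ e ∈ s.divisors, (μ e : ℝ) * f e = ∑ e ∈ s.divisors, (μ e : ℝ) * (Nat.gcd d e : ℝ) := by
    refine Finset.sum_congr rfl fun e he => ?_
    rw [hf1, if_neg (Nat.pos_of_mem_divisors he).ne']
  rw [← h2, ← h1]
  have h3 : ∀ p ∈ s.primeFactors, (1 - f p) = 1 - if p ∣ d then (p : ℝ) else 1 := by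
    intro p hp
    have hpp := Nat.prime_of_mem_primeFactors hp
    rw [hf1, if_neg hpp.ne_zero]
    by_cases hpd : p ∣ d
    · rw [if_pos hpd, Nat.gcd_eq_right hpd]
    · rw [if_neg hpd, Nat.gcd_comm, (hpp.coprime_iff_not_dvd.2 hpd)]
      simp
  rw [Finset.prod_congr rfl h3]
  by_cases hsd : s ∣ d
  · rw [if_pos hsd]
    have h4 : ∀ p ∈ s.primeFactors, (1 - if p ∣ d then (p : ℝ) else 1) =
        (-1) * (((p - 1 : ℕ) : ℝ)) := by
      intro p hp
      have hpp := Nat.prime_of_mem_primeFactors hp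
      rw [if_pos ((Nat.dvd_of_mem_primeFactors hp).trans hsd), Nat.cast_sub hpp.one_le]
      push_cast; ring
    rw [Finset.prod_congr rfl h4, Finset.prod_mul_distrib, Finset.prod_const]
    have h5 : (μ s : ℝ) = (-1) ^ s.primeFactors.card := by
      rw [ArithmeticFunction.moebius_apply_of_squarefree hs,
        ← (ArithmeticFunction.cardDistinctFactors_eq_cardFactors_iff_squarefree hs.ne_zero).2 hs,
        ArithmeticFunction.cardDistinctFactors_apply, Nat.primeFactors, List.card_toFinset]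
      push_cast
      congr!
    have h6 : ∏ p ∈ s.primeFactors, (((p - 1 : ℕ) : ℝ)) = (Nat.totient s : ℝ) := by
      have h7 := Nat.totient_mul_prod_primeFactors s
      rw [Nat.prod_primeFactors_of_squarefree hs, mul_comm] at h7
      have h8 := Nat.eq_of_mul_eq_mul_left (Nat.pos_of_ne_zero hs.ne_zero) h7
      rw [h8]; push_cast; rfl
    rw [h5, h6]
  · rw [if_neg hsd]
    obtain ⟨p, hp, hpd⟩ : ∃ p ∈ s.primeFactors, ¬ p ∣ d := by
      by_contra hc
      push Not at hc
      apply hsd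
      rw [← Nat.prod_primeFactors_of_squarefree hs]
      exact Finset.prod_primes_dvd d (fun p hp => (Nat.prime_of_mem_primeFactors hp).prime) hc
    exact Finset.prod_eq_zero hp (by rw [if_neg hpd]; ring)

lemma JJ {r s : ℕ} (hr : Squarefree r) (hs : Squarefree s) :
    ∑ d ∈ r.divisors, ∑ e ∈ s.divisors, (μ d : ℝ) * (μ e : ℝ) * (Nat.gcd d e : ℝ) =
      if r = s then (Nat.totient r : ℝ) else 0 := by
  have h1 : ∀ r s : ℕ, Squarefree r → Squarefree s →
      ∑ d ∈ r.divisors, ∑ e ∈ s.divisors, (μ d : ℝ) * (μ e : ℝ) * (Nat.gcd d e : ℝ) =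
      ∑ d ∈ r.divisors, (μ d : ℝ) * (if s ∣ d then (μ s : ℝ) * (Nat.totient s : ℝ) else 0) := by
    intro r s _ hs
    refine Finset.sum_congr rfl fun d _ => ?_
    rw [← gsum hs, Finset.mul_sum]
    exact Finset.sum_congr rfl fun e _ => by ring
  have h2 : ∀ r s : ℕ, Squarefree r → Squarefree s → ¬ s ∣ r →
      ∑ d ∈ r.divisors, ∑ e ∈ s.divisors, (μ d : ℝ) * (μ e : ℝ) * (Nat.gcd d e : ℝ) = 0 := by
    intro r s hr hs h
    rw [h1 r s hr hs]
    refine Finset.sum_eq_zero fun d hd => ?_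
    rw [if_neg (fun h' => h (h'.trans (Nat.dvd_of_mem_divisors hd))), mul_zero]
  by_cases hrs : r = s
  · subst hrs
    rw [if_pos rfl, h1 r r hr hr, Finset.sum_eq_single r]
    · rw [if_pos dvd_rfl]
      have h3 : (μ r : ℝ) ^ 2 = 1 := by
        have := ArithmeticFunction.moebius_sq_eq_one_of_squarefree hr
        exact_mod_cast this
      calc (μ r : ℝ) * ((μ r : ℝ) * (Nat.totient r : ℝ)) = (μ r : ℝ) ^ 2 * (Nat.totient r : ℝ) := by
            ring
        _ = _ := by rw [h3, one_mul]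
    · intro d hd hdr
      rw [if_neg (fun h' => hdr (Nat.dvd_antisymm (Nat.dvd_of_mem_divisors hd) h')), mul_zero]
    · intro h
      exact absurd (Nat.mem_divisors_self r hr.ne_zero) h
  · rw [if_neg hrs]
    by_cases h3 : s ∣ r
    · rw [Finset.sum_comm]
      have h4 : ¬ r ∣ s := fun h4 => hrs (Nat.dvd_antisymm h4 h3)
      rw [← h2 s r hs hr h4]
      refine Finset.sum_congr rfl fun e _ => Finset.sum_congr rfl fun d _ => ?_
      rw [Nat.gcd_comm]; ring
    · exact h2 r s hr hs h3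

lemma musum {r : ℕ} (hr : Squarefree r) :
    ∑ d ∈ r.divisors, (μ d : ℝ) = if r = 1 then 1 else 0 := by
  have h := JJ (r := r) (s := 1) hr squarefree_one
  have h2 : ∑ d ∈ r.divisors, (μ d : ℝ) = ∑ d ∈ r.divisors, ∑ e ∈ (1 : ℕ).divisors,
      (μ d : ℝ) * (μ e : ℝ) * (Nat.gcd d e : ℝ) :=
    Finset.sum_congr rfl fun d _ => by simp
  rw [h2, h]
  by_cases h1 : r = 1
  · simp [h1]
  · simp [h1]

lemma J_eq (o : ℝ) {r s : ℕ} (hr : r = 0 ∨ Squarefree r) (hs : s = 0 ∨ Squarefree s)
    (h10 : ¬ (r = 1 ∧ s = 0)) (h01 : ¬ (r = 0 ∧ s = 1)) :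
    ∑ d ∈ DL r, ∑ e ∈ DL s, kap d * kap e * dd o (LL d e) = if r = s then ww o r else 0 := by
  rcases eq_or_ne r 0 with hr0 | hr0
  · rcases eq_or_ne s 0 with hs0 | hs0
    · subst hr0 hs0
      simp [DL, kap, LL, dd, ww]
    · have hs' := hs.resolve_left hs0
      subst hr0
      have hs1 : s ≠ 1 := fun h => h01 ⟨rfl, h⟩
      rw [if_neg hs0.symm]
      have : ∑ d ∈ DL 0, ∑ e ∈ DL s, kap d * kap e * dd o (LL d e) =
          o * ∑ e ∈ s.divisors, (μ e : ℝ) := by
        unfold DL
        rw [if_pos rfl, if_neg hs0, Finset.sum_singleton, Finset.mul_sum]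
        refine Finset.sum_congr rfl fun e he => ?_
        have he0 : e ≠ 0 := (Nat.pos_of_mem_divisors he).ne'
        have he0' : (e : ℝ) ≠ 0 := by exact_mod_cast he0
        simp only [kap, LL, dd, if_true, he0, if_false]
        field_simp
      rw [this, musum hs', if_neg hs1, mul_zero]
  · have hr' := hr.resolve_left hr0
    rcases eq_or_ne s 0 with hs0 | hs0
    · subst hs0
      have hr1 : r ≠ 1 := fun h => h10 ⟨h, rfl⟩
      rw [if_neg hr0]
      have : ∑ d ∈ DL r, ∑ e ∈ DL 0, kap d * kap e * dd o (LL d e) =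
          o * ∑ e ∈ r.divisors, (μ e : ℝ) := by
        unfold DL
        rw [if_pos rfl, if_neg hr0, Finset.mul_sum]
        refine Finset.sum_congr rfl fun e he => ?_
        have he0 : e ≠ 0 := (Nat.pos_of_mem_divisors he).ne'
        have he0' : (e : ℝ) ≠ 0 := by exact_mod_cast he0
        simp only [kap, LL, dd, if_true, he0, if_false, Finset.sum_singleton]
        field_simp
      rw [this, musum hr', if_neg hr1, mul_zero]
    · have hs' := hs.resolve_left hs0
      have : ∑ d ∈ DL r, ∑ e ∈ DL s, kap d * kap e * dd o (LL d e) =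
          o * ∑ d ∈ r.divisors, ∑ e ∈ s.divisors, (μ d : ℝ) * (μ e : ℝ) * (Nat.gcd d e : ℝ) := by
        unfold DL
        rw [if_neg hr0, if_neg hs0, Finset.mul_sum]
        refine Finset.sum_congr rfl fun d hd => ?_
        rw [Finset.mul_sum]
        refine Finset.sum_congr rfl fun e he => ?_
        have hd0 : d ≠ 0 := (Nat.pos_of_mem_divisors hd).ne'
        have he0 : e ≠ 0 := (Nat.pos_of_mem_divisors he).ne'
        have hl0 := Nat.lcm_ne_zero hd0 he0
        have hl0' : ((Nat.lcm d e : ℕ) : ℝ) ≠ 0 := by exact_mod_cast hl0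
        have hg : ((Nat.gcd d e : ℕ) : ℝ) * ((Nat.lcm d e : ℕ) : ℝ) = d * e := by
          exact_mod_cast Nat.gcd_mul_lcm d e
        simp only [kap, LL, dd, hd0, he0, hl0, if_false]
        rw [mul_div_assoc', div_eq_iff hl0']
        calc _ = (μ d : ℝ) * (μ e : ℝ) * o * (d * e) := by ring
          _ = _ := by rw [← hg]; ring
      rw [this, JJ hr' hs']
      by_cases hrs : r = s
      · rw [if_pos hrs, if_pos hrs]
        unfold ww
        rw [if_neg hr0]
      · rw [if_neg hrs, if_neg hrs, mul_zero]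

lemma DL_spec {z X r d : ℕ} (hr : r = 0 ∨ r ∈ SS z X) (hd : d ∈ DL r) :
    (d = 0 ↔ r = 0) ∧ (d = 0 ∨ Sf z d) ∧ d ≤ r := by
  unfold DL at hd
  rcases eq_or_ne r 0 with h0 | h0
  · rw [if_pos h0, Finset.mem_singleton] at hd
    subst h0 hd
    exact ⟨Iff.rfl, Or.inl rfl, le_rfl⟩
  · rw [if_neg h0] at hd
    have hd0 : d ≠ 0 := (Nat.pos_of_mem_divisors hd).ne'
    have hdr := Nat.dvd_of_mem_divisors hd
    have hS := (Finset.mem_filter.1 (hr.resolve_left h0)).2
    exact ⟨⟨fun h => absurd h hd0, fun h => absurd h h0⟩,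
      Or.inr ⟨hS.1.squarefree_of_dvd hdr, fun p hp hpd => hS.2 p hp (hpd.trans hdr)⟩,
      Nat.le_of_dvd (Nat.pos_of_ne_zero h0) hdr⟩

lemma LL_Sf {z d e : ℕ} (hd : d = 0 ∨ Sf z d) (he : e = 0 ∨ Sf z e) :
    LL d e = 0 ∨ Sf z (LL d e) := by
  unfold LL
  by_cases hd0 : d = 0
  · rw [if_pos hd0]; exact he
  · rw [if_neg hd0]
    by_cases he0 : e = 0
    · rw [if_pos he0]; exact hd
    · rw [if_neg he0]
      right
      have hd' := hd.resolve_left hd0
      have he' := he.resolve_left he0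
      refine ⟨?_, fun p hp hpl => ?_⟩
      · rw [Nat.squarefree_iff_factorization_le_one (Nat.lcm_ne_zero hd0 he0)]
        intro p
        rw [Nat.factorization_lcm hd0 he0, Finsupp.sup_apply]
        exact sup_le ((Nat.squarefree_iff_factorization_le_one hd0).1 hd'.1 p)
          ((Nat.squarefree_iff_factorization_le_one he0).1 he'.1 p)
      · rcases (Nat.Prime.dvd_lcm hp).1 hpl with h | h
        · exact hd'.2 p hp h
        · exact he'.2 p hp h

lemma LL_le (d e : ℕ) : max 1 (LL d e) ≤ max 1 d * max 1 e := by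
  unfold LL
  split_ifs with h1 h2
  · subst h1; simp
  · subst h2; simp
  · have h3 : Nat.lcm d e ≤ d * e :=
      Nat.le_of_dvd (Nat.mul_pos (Nat.pos_of_ne_zero h1) (Nat.pos_of_ne_zero h2))
        (Nat.lcm_dvd_mul d e)
    have h4 : 1 ≤ d := Nat.pos_of_ne_zero h1
    have h5 : 1 ≤ e := Nat.pos_of_ne_zero h2
    rw [max_eq_right h4, max_eq_right h5]
    exact max_le (Nat.mul_pos h4 h5) h3

lemma dd_nonneg {o : ℝ} (ho : 0 ≤ o) (d : ℕ) : 0 ≤ dd o d := by
  unfold dd
  split_ifs
  · exact zero_le_one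
  · positivity

lemma sum_pi_pi {ι : Type} [Fintype ι] [DecidableEq ι] (A B : ι → Finset ℕ)
    (F : ι → ℕ → ℕ → ℝ) :
    ∑ d ∈ Fintype.piFinset A, ∑ e ∈ Fintype.piFinset B, ∏ i, F i (d i) (e i) =
      ∏ i, ∑ a ∈ A i, ∑ b ∈ B i, F i a b := by
  rw [Finset.prod_univ_sum]
  refine Finset.sum_congr rfl fun d _ => ?_
  rw [Finset.prod_univ_sum]

theorem tr (h : StmtTRE) : StmtTR := by
  intro ι _ _ pt y z X D K N Y o δ C T c al BB hz hY ho hδ hC hT h1 hD hBB hK hal hal0 hc hsum
    hcount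
  have hE := h ι z X K o δ C T al BB hz ho hδ hC hT hBB hK hal hal0 hsum
  set cnt : (ι → ℕ) → ℝ := fun L =>
    ((N.filter (fun n => ∀ i, L i ≠ 0 → L i ∣ n + pt i ∧ Rg y z (n + pt i))).card : ℝ) with hcnt
  set PL : (ι → ℕ) → Finset (ι → ℕ) := fun r => Fintype.piFinset (fun i => DL (r i)) with hPL
  have hind : ∀ L : ι → ℕ, ∑ n ∈ N, ∏ i, ind y z (L i) (n + pt i) = cnt L := by
    intro L
    rw [hcnt]
    simp only [Finset.card_filter, Nat.cast_sum]
    refine Finset.sum_congr rfl fun n _ => ?_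
    by_cases hn : ∀ i, L i ≠ 0 → L i ∣ n + pt i ∧ Rg y z (n + pt i)
    · rw [if_pos hn]
      push_cast
      refine Finset.prod_eq_one fun i _ => ?_
      unfold ind
      by_cases hi : L i = 0
      · rw [if_pos hi]
      · rw [if_neg hi, if_pos (hn i hi)]
    · rw [if_neg hn]
      push Not at hn
      obtain ⟨i, hi, hi'⟩ := hn
      push_cast
      refine Finset.prod_eq_zero (Finset.mem_univ i) ?_
      unfold ind
      rw [if_neg hi, if_neg (fun hh => hi' hh.1 hh.2)]
  have hsqf : ∀ r ∈ T, ∀ i, r i = 0 ∨ Squarefree (r i) := by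
    intro r hr i
    rcases hT r hr i with h' | h'
    · exact Or.inl h'
    · exact Or.inr (Finset.mem_filter.1 h').2.1
  have hexp : ∀ r ∈ T, ∀ n, ∏ i, vv y z (r i) (n + pt i) =
      ∑ d ∈ PL r, ∏ i, (kap (d i) * ind y z (d i) (n + pt i)) := by
    intro r hr n
    rw [hPL]
    simp only
    rw [← Finset.prod_univ_sum (fun i => DL (r i)) (fun i a => kap a * ind y z a (n + pt i))]
    exact Finset.prod_congr rfl fun i _ => vv_eq (hsqf r hr i)
  have hsq : ∑ n ∈ N, (∑ r ∈ T, c r * ∏ i, vv y z (r i) (n + pt i)) ^ 2 =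
      ∑ r ∈ T, ∑ s ∈ T, c r * c s * ∑ d ∈ PL r, ∑ e ∈ PL s,
        (∏ i, (kap (d i) * kap (e i))) * cnt (fun i => LL (d i) (e i)) := by
    have e1 : ∀ n ∈ N, (∑ r ∈ T, c r * ∏ i, vv y z (r i) (n + pt i)) ^ 2 =
        ∑ r ∈ T, ∑ s ∈ T, c r * c s * ∑ d ∈ PL r, ∑ e ∈ PL s,
          (∏ i, (kap (d i) * kap (e i))) * ∏ i, ind y z (LL (d i) (e i)) (n + pt i) := by
      intro n _
      rw [sq, Finset.sum_mul_sum]
      refine Finset.sum_congr rfl fun r hr => Finset.sum_congr rfl fun s hs => ?_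
      rw [hexp r hr n, hexp s hs n]
      rw [show ∀ a b u v : ℝ, a * u * (b * v) = a * b * (u * v) from fun a b u v => by ring,
        Finset.sum_mul_sum]
      congr 1
      refine Finset.sum_congr rfl fun d _ => Finset.sum_congr rfl fun e _ => ?_
      rw [← Finset.prod_mul_distrib, ← Finset.prod_mul_distrib]
      refine Finset.prod_congr rfl fun i _ => ?_
      rw [← ind_mul]
      ring
    rw [Finset.sum_congr rfl e1, Finset.sum_comm]
    refine Finset.sum_congr rfl fun r _ => ?_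
    rw [Finset.sum_comm]
    refine Finset.sum_congr rfl fun s _ => ?_
    rw [← Finset.mul_sum, Finset.sum_comm]
    congr 1
    refine Finset.sum_congr rfl fun d _ => ?_
    rw [Finset.sum_comm]
    refine Finset.sum_congr rfl fun e _ => ?_
    rw [← Finset.mul_sum, hind]
  have hmain : Y * ∑ r ∈ T, c r ^ 2 * ∏ i, ww o (r i) =
      ∑ r ∈ T, ∑ s ∈ T, c r * c s * ∑ d ∈ PL r, ∑ e ∈ PL s,
        (∏ i, (kap (d i) * kap (e i))) * (Y * ∏ i, dd o (LL (d i) (e i))) := by
    have e1 : ∀ r ∈ T, ∀ s ∈ T, ∑ d ∈ PL r, ∑ e ∈ PL s,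
        (∏ i, (kap (d i) * kap (e i))) * (Y * ∏ i, dd o (LL (d i) (e i))) =
        Y * if r = s then ∏ i, ww o (r i) else 0 := by
      intro r hr s hs
      have e2 : ∑ d ∈ PL r, ∑ e ∈ PL s,
          (∏ i, (kap (d i) * kap (e i))) * (Y * ∏ i, dd o (LL (d i) (e i))) =
          Y * ∑ d ∈ PL r, ∑ e ∈ PL s, ∏ i, (kap (d i) * kap (e i) * dd o (LL (d i) (e i))) := by
        rw [Finset.mul_sum]
        refine Finset.sum_congr rfl fun d _ => ?_
        rw [Finset.mul_sum]
        refine Finset.sum_congr rfl fun e _ => ?_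
        rw [Finset.prod_mul_distrib (f := fun i => kap (d i) * kap (e i))]
        ring
      rw [e2, hPL]
      simp only
      rw [sum_pi_pi (fun i => DL (r i)) (fun i => DL (s i))
        (fun _ a b => kap a * kap b * dd o (LL a b))]
      congr 1
      have e3 : ∀ i, ∑ a ∈ DL (r i), ∑ b ∈ DL (s i), kap a * kap b * dd o (LL a b) =
          if r i = s i then ww o (r i) else 0 := by
        intro i
        refine J_eq o (hsqf r hr i) (hsqf s hs i) ?_ ?_
        · rintro ⟨h2, h3⟩
          exact h1 r hr s hs i h2 h3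
        · rintro ⟨h2, h3⟩
          exact h1 s hs r hr i h3 h2
      rw [Finset.prod_congr rfl fun i _ => e3 i]
      by_cases hrs : r = s
      · subst hrs
        simp
      · rw [if_neg hrs]
        obtain ⟨i, hi⟩ := Function.ne_iff.1 hrs
        exact Finset.prod_eq_zero (Finset.mem_univ i) (if_neg hi)
    rw [Finset.mul_sum]
    refine Finset.sum_congr rfl fun r hr => ?_
    rw [Finset.sum_eq_single r]
    · rw [e1 r hr r hr, if_pos rfl]
      ring
    · intro s hs hsr
      rw [e1 r hr s hs, if_neg hsr.symm, mul_zero, mul_zero]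
    · intro hr'
      exact absurd hr hr'
  -- the error for one term
  have herr : ∀ r ∈ T, ∀ s ∈ T, ∀ d ∈ PL r, ∀ e ∈ PL s,
      |cnt (fun i => LL (d i) (e i)) - Y * ∏ i, dd o (LL (d i) (e i))| ≤
        (δ + nc (fun i => LL (d i) (e i))) * (Y * ∏ i, dd o (LL (d i) (e i))) := by
    intro r hr s hs d hd e he
    have hd' : ∀ i, d i ∈ DL (r i) := fun i => (Fintype.mem_piFinset.1 hd) i
    have he' : ∀ i, e i ∈ DL (s i) := fun i => (Fintype.mem_piFinset.1 he) i
    have k1 : ∀ i, LL (d i) (e i) = 0 ∨ Sf z (LL (d i) (e i)) := fun i =>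
      LL_Sf (DL_spec (hT r hr i) (hd' i)).2.1 (DL_spec (hT s hs i) (he' i)).2.1
    have k2 : ∏ i, max 1 (LL (d i) (e i)) ≤ D := by
      have a1 : ∏ i, max 1 (LL (d i) (e i)) ≤ (∏ i, max 1 (r i)) * ∏ i, max 1 (s i) := by
        rw [← Finset.prod_mul_distrib]
        refine Finset.prod_le_prod' fun i _ => ?_
        refine (LL_le _ _).trans (Nat.mul_le_mul ?_ ?_)
        · exact max_le_max le_rfl (DL_spec (hT r hr i) (hd' i)).2.2
        · exact max_le_max le_rfl (DL_spec (hT s hs i) (he' i)).2.2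
      have a2 := hD r hr
      have a3 := hD s hs
      rcases le_total (∏ i, max 1 (r i)) (∏ i, max 1 (s i)) with h4 | h4
      · refine a1.trans ((Nat.mul_le_mul h4 le_rfl).trans ?_)
        rw [← sq]; exact a3
      · refine a1.trans ((Nat.mul_le_mul le_rfl h4).trans ?_)
        rw [← sq]; exact a2
    have k3 : (univ.filter (fun i => LL (d i) (e i) ≠ 0)) ∈ BB := by
      have a1 : (univ.filter (fun i => LL (d i) (e i) ≠ 0)) =
          (univ.filter (fun i => r i ≠ 0 ∨ s i ≠ 0)) := by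
        refine Finset.filter_congr fun i _ => ?_
        have b1 := (DL_spec (hT r hr i) (hd' i)).1
        have b2 := (DL_spec (hT s hs i) (he' i)).1
        rw [Ne, LL_eq_zero, b1, b2, not_and_or]
      rw [a1]
      exact hBB r hr s hs
    obtain ⟨k4, k5⟩ := hcount (fun i => LL (d i) (e i)) k1 k2 k3
    have hdn : 0 ≤ Y * ∏ i, dd o (LL (d i) (e i)) :=
      mul_nonneg hY (Finset.prod_nonneg fun i _ => dd_nonneg ho _)
    by_cases hco : ∀ i j, i ≠ j → LL (d i) (e i) ≠ 0 → LL (d j) (e j) ≠ 0 →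
        Nat.Coprime (LL (d i) (e i)) (LL (d j) (e j))
    · have a1 : nc (fun i => LL (d i) (e i)) = 0 := if_pos hco
      rw [a1, add_zero]
      exact k4 hco
    · have a1 : nc (fun i => LL (d i) (e i)) = 1 := if_neg hco
      have a2 : cnt (fun i => LL (d i) (e i)) = 0 := by
        rw [hcnt]
        simp only
        rw [k5 hco, Nat.cast_zero]
      rw [a1, a2, zero_sub, abs_neg, abs_of_nonneg hdn]
      nlinarith
  rw [hsq, hmain, ← Finset.sum_sub_distrib]
  have hfin : ∀ r ∈ T, ∀ s ∈ T,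
      |c r * c s * ∑ d ∈ PL r, ∑ e ∈ PL s,
        (∏ i, (kap (d i) * kap (e i))) * cnt (fun i => LL (d i) (e i)) -
       c r * c s * ∑ d ∈ PL r, ∑ e ∈ PL s,
        (∏ i, (kap (d i) * kap (e i))) * (Y * ∏ i, dd o (LL (d i) (e i)))| ≤
      Y * ((∏ i, (al i (r i) * al i (s i))) * ∑ d ∈ PL r, ∑ e ∈ PL s,
        (∏ i, (|kap (d i)| * |kap (e i)| * dd o (LL (d i) (e i)))) *
          (δ + nc (fun i => LL (d i) (e i)))) := by
    intro r hr s hs
    rw [← mul_sub, ← Finset.sum_sub_distrib, abs_mul]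
    have a1 : |c r * c s| ≤ ∏ i, (al i (r i) * al i (s i)) := by
      rw [abs_mul, Finset.prod_mul_distrib]
      exact mul_le_mul (hc r hr) (hc s hs) (abs_nonneg _)
        (Finset.prod_nonneg fun i _ => hal i _)
    have a2 : |∑ d ∈ PL r, (∑ e ∈ PL s,
        (∏ i, (kap (d i) * kap (e i))) * cnt (fun i => LL (d i) (e i)) -
          ∑ e ∈ PL s, (∏ i, (kap (d i) * kap (e i))) * (Y * ∏ i, dd o (LL (d i) (e i))))| ≤
        Y * ∑ d ∈ PL r, ∑ e ∈ PL s,
        (∏ i, (|kap (d i)| * |kap (e i)| * dd o (LL (d i) (e i)))) *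
          (δ + nc (fun i => LL (d i) (e i))) := by
      refine (Finset.abs_sum_le_sum_abs _ _).trans ?_
      rw [Finset.mul_sum]
      refine Finset.sum_le_sum fun d hd => ?_
      rw [← Finset.sum_sub_distrib]
      refine (Finset.abs_sum_le_sum_abs _ _).trans ?_
      rw [Finset.mul_sum]
      refine Finset.sum_le_sum fun e he => ?_
      rw [← mul_sub, abs_mul, Finset.abs_prod]
      refine (mul_le_mul_of_nonneg_left (herr r hr s hs d hd e he)
        (Finset.prod_nonneg fun i _ => abs_nonneg _)).trans (le_of_eq ?_)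
      have b1 : ∏ i, |kap (d i) * kap (e i)| = ∏ i, (|kap (d i)| * |kap (e i)|) :=
        Finset.prod_congr rfl fun i _ => abs_mul _ _
      rw [b1, Finset.prod_mul_distrib (f := fun i => |kap (d i)| * |kap (e i)|)]
      ring
    calc _ ≤ (∏ i, (al i (r i) * al i (s i))) * (Y * ∑ d ∈ PL r, ∑ e ∈ PL s,
        (∏ i, (|kap (d i)| * |kap (e i)| * dd o (LL (d i) (e i)))) *
          (δ + nc (fun i => LL (d i) (e i)))) :=
          mul_le_mul a1 a2 (abs_nonneg _)
            (Finset.prod_nonneg fun i _ => mul_nonneg (hal i _) (hal i _))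
      _ = _ := by ring
  refine (Finset.abs_sum_le_sum_abs _ _).trans ?_
  calc _ ≤ ∑ r ∈ T, ∑ s ∈ T, Y * ((∏ i, (al i (r i) * al i (s i))) * ∑ d ∈ PL r, ∑ e ∈ PL s,
        (∏ i, (|kap (d i)| * |kap (e i)| * dd o (LL (d i) (e i)))) *
          (δ + nc (fun i => LL (d i) (e i)))) := by
        refine Finset.sum_le_sum fun r hr => ?_
        rw [← Finset.sum_sub_distrib]
        exact (Finset.abs_sum_le_sum_abs _ _).trans
          (Finset.sum_le_sum fun s hs => hfin r hr s hs)
    _ = Y * ∑ r ∈ T, ∑ s ∈ T, (∏ i, (al i (r i) * al i (s i))) * ∑ d ∈ PL r, ∑ e ∈ PL s,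
        (∏ i, (|kap (d i)| * |kap (e i)| * dd o (LL (d i) (e i)))) *
          (δ + nc (fun i => LL (d i) (e i))) := by
        rw [Finset.mul_sum]
        refine Finset.sum_congr rfl fun r _ => ?_
        rw [Finset.mul_sum]
    _ ≤ _ := by
        rw [mul_assoc]
        exact mul_le_mul_of_nonneg_left hE hY

end Pool.Agent.Helper93.PP
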