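import Pool.Agent.Helper51.PP.GoalsA2

/-! PP part A2: HOL, Hoelder with unbounded exponent. -/

namespace Pool.Agent.Helper93.PP

theorem a2_hol : Pool.Agent.Helper51.PP.A2_HOL := by
  intro J _ β S r B M hr hβ hB hB0 hM
  have hr' : (1 : ℝ) ≤ (r : ℝ) := by exact_mod_cast hr
  set t : ℝ := 1 / (2 * (r : ℝ)) with ht
  have ht0 : 0 < t := by positivity
  have ht1 : t < 1 := by
    rw [ht, div_lt_one (by positivity)]
    linarith
  have htinv : t⁻¹ = ((2 * r : ℕ) : ℝ) := by
    rw [ht, one_div, inv_inv]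
    push_cast
    ring
  have h1 := Real.inner_le_Lp_mul_Lq_of_nonneg (s := Finset.univ) (f := fun j => ‖β j‖)
    (g := fun j => ‖S j‖) (Real.HolderConjugate.one_sub_inv_inv ht0 ht1)
    (fun j _ => norm_nonneg _) (fun j _ => norm_nonneg _)
  have h2 : ‖∑ j, β j * S j‖ ≤ ∑ j, ‖β j‖ * ‖S j‖ := by
    refine (norm_sum_le _ _).trans (le_of_eq ?_)
    exact Finset.sum_congr rfl fun j _ => norm_mul _ _
  refine h2.trans (h1.trans ?_)
  have e1 : 1 / (1 - t)⁻¹ = 1 - t := by rw [one_div, inv_inv]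
  have e2 : 1 / t⁻¹ = t := by rw [one_div, inv_inv]
  rw [e1, e2]
  refine mul_le_mul ?_ ?_ ?_ ?_
  · refine Real.rpow_le_rpow (Finset.sum_nonneg fun j _ => Real.rpow_nonneg (norm_nonneg _) _)
      ?_ (by linarith)
    refine le_trans (Finset.sum_le_sum fun j _ => ?_) hB
    rcases eq_or_lt_of_le (norm_nonneg (β j)) with h0 | h0
    · rw [← h0, Real.zero_rpow (by positivity)]
    · calc ‖β j‖ ^ (1 - t)⁻¹ ≤ ‖β j‖ ^ (1 : ℝ) := by
            refine Real.rpow_le_rpow_of_exponent_ge h0 (hβ j) ?_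
            rw [one_le_inv₀ (by linarith)]
            linarith
        _ = ‖β j‖ := Real.rpow_one _
  · refine Real.rpow_le_rpow (Finset.sum_nonneg fun j _ => Real.rpow_nonneg (norm_nonneg _) _)
      ?_ ht0.le
    refine le_trans (le_of_eq (Finset.sum_congr rfl fun j _ => ?_)) hM
    rw [htinv, Real.rpow_natCast]
  · exact Real.rpow_nonneg (Finset.sum_nonneg fun j _ => Real.rpow_nonneg (norm_nonneg _) _) _
  · exact Real.rpow_nonneg hB0 _

end Pool.Agent.Helper93.PP
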